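import Mathlib

/-!
Binomial coefficients and factorials are Diophantine; finite conjunctions; polynomial bounds.
-/

namespace Pool.Agent.Lib.Common.DPRM

open Dioph Finset

theorem digit (u : ℕ) : ∀ (k N : ℕ) (s : ℕ → ℕ), (∀ i, s i < u) → k < N →
    (∑ i ∈ range N, s i * u ^ i) / u ^ k % u = s k := by
  intro k
  induction k with
  | zero =>
    intro N s hs hk
    obtain ⟨N, rfl⟩ : ∃ M, N = M + 1 := ⟨N - 1, by omega⟩
    rw [sum_range_succ']
    have : ∑ i ∈ range N, s (i + 1) * u ^ (i + 1) = u * ∑ i ∈ range N, s (i + 1) * u ^ i := by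
      rw [mul_sum]; exact sum_congr rfl fun i _ => by ring
    rw [this]
    simp [Nat.mod_eq_of_lt (hs 0)]
  | succ k ih =>
    intro N s hs hk
    obtain ⟨N, rfl⟩ : ∃ M, N = M + 1 := ⟨N - 1, by omega⟩
    rw [sum_range_succ']
    have : ∑ i ∈ range N, s (i + 1) * u ^ (i + 1) = u * ∑ i ∈ range N, s (i + 1) * u ^ i := by
      rw [mul_sum]; exact sum_congr rfl fun i _ => by ring
    rw [this, pow_succ', ← Nat.div_div_eq_div_mul]
    have hu : 0 < u := lt_of_le_of_lt (Nat.zero_le _) (hs 0)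
    have h2 : (u * ∑ i ∈ range N, s (i + 1) * u ^ i + s 0 * u ^ 0) / u
        = ∑ i ∈ range N, s (i + 1) * u ^ i := by
      rw [pow_zero, mul_one, Nat.mul_add_div hu, Nat.div_eq_of_lt (hs 0), add_zero]
    rw [h2]
    exact ih N (fun i => s (i + 1)) (fun i => hs _) (by omega)

theorem choose_eq (n k : ℕ) :
    n.choose k = (2 ^ n + 1 + 1) ^ n / (2 ^ n + 1) ^ k % (2 ^ n + 1) := by
  obtain ⟨u, hu⟩ : ∃ u, u = 2 ^ n + 1 := ⟨_, rfl⟩
  rw [← hu]
  have h1 : (u + 1) ^ n = ∑ i ∈ range (n + k + 1), n.choose i * u ^ i := by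
    rw [add_pow]
    simp only [one_pow, mul_one, Nat.cast_id]
    rw [← sum_subset (s₁ := range (n + 1)) (s₂ := range (n + k + 1))]
    · exact sum_congr rfl fun i _ => by ring
    · intro i hi; simp only [mem_range] at hi ⊢; omega
    · intro i _ hi
      simp only [mem_range, not_lt] at hi
      rw [Nat.choose_eq_zero_of_lt (by omega), zero_mul]
  rw [h1, digit u k (n + k + 1) (fun i => n.choose i) _ (by omega)]
  intro i
  have := Nat.choose_le_two_pow n i
  omega

theorem factorial_eq (n : ℕ) :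
    n.factorial = ((n + 1) ^ (n + 3)) ^ n / ((n + 1) ^ (n + 3)).choose n := by
  obtain ⟨r, hr⟩ : ∃ r, r = (n + 1) ^ (n + 3) := ⟨_, rfl⟩
  rw [← hr]
  have hf : n.factorial ≤ (n + 1) ^ n :=
    (Nat.factorial_le_pow n).trans (Nat.pow_le_pow_left (by omega) n)
  have hpos : 0 < (n + 1) ^ n := by positivity
  have hr1 : (n.factorial + 1) * (n * n) < r := by
    have : r = (n + 1) ^ n * (n + 1) ^ 3 := by rw [hr]; ring
    rw [this]
    have h3 : 2 * (n * n) < (n + 1) ^ 3 := by nlinarith [Nat.zero_le (n ^ 3)]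
    calc (n.factorial + 1) * (n * n) ≤ (2 * (n + 1) ^ n) * (n * n) :=
          Nat.mul_le_mul_right _ (by omega)
      _ = (n + 1) ^ n * (2 * (n * n)) := by ring
      _ < _ := Nat.mul_lt_mul_of_pos_left h3 hpos |> fun h => by simpa using h
  have hnr : n ≤ r := by
    have : n < (n + 1) ^ (n + 3) := by
      calc n < n + 1 := by omega
        _ = (n + 1) ^ 1 := by ring
        _ ≤ _ := Nat.pow_le_pow_right (by omega) (by omega)
    omega
  have hrpos : 0 < r := by omega
  symm
  apply Nat.div_eq_of_lt_le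
  · rw [← Nat.descFactorial_eq_factorial_mul_choose]
    exact Nat.descFactorial_le_pow r n
  · have hd : (r - n) ^ n ≤ r.descFactorial n :=
      (Nat.pow_le_pow_left (by omega) n).trans (Nat.pow_sub_le_descFactorial r n)
    have key : n.factorial * r ^ n < (n.factorial + 1) * (r - n) ^ n := by
      have hrR : (0 : ℝ) < r := by exact_mod_cast hrpos
      have hnrR : (n : ℝ) ≤ r := by exact_mod_cast hnr
      have hb : 1 + (n : ℝ) * (-(n / r)) ≤ (1 + -((n : ℝ) / r)) ^ n := by
        apply one_add_mul_le_pow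
        have : (n : ℝ) / r ≤ 1 := (div_le_one hrR).2 hnrR
        linarith
      have he : ((r : ℝ) - n) ^ n = (r : ℝ) ^ n * (1 + -((n : ℝ) / r)) ^ n := by
        rw [← mul_pow]; congr 1; field_simp; ring
      have h1R : ((n.factorial : ℝ) + 1) * (n * n) < r := by exact_mod_cast hr1
      have h2 : (n.factorial : ℝ) < ((n.factorial : ℝ) + 1) * (1 + (n : ℝ) * (-(n / r))) := by
        have : ((n.factorial : ℝ) + 1) * (n * n) / r < 1 := (div_lt_one hrR).2 h1R
        have e : ((n.factorial : ℝ) + 1) * (1 + (n : ℝ) * (-(n / r)))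
            = n.factorial + 1 - ((n.factorial : ℝ) + 1) * (n * n) / r := by
          field_simp; ring
        linarith
      have hrn : (0 : ℝ) < (r : ℝ) ^ n := by positivity
      have : (n.factorial : ℝ) * (r : ℝ) ^ n < ((n.factorial : ℝ) + 1) * ((r : ℝ) - n) ^ n := by
        rw [he]
        calc (n.factorial : ℝ) * (r : ℝ) ^ n
            < (((n.factorial : ℝ) + 1) * (1 + (n : ℝ) * (-(n / r)))) * (r : ℝ) ^ n :=
              mul_lt_mul_of_pos_right h2 hrn
          _ ≤ (((n.factorial : ℝ) + 1) * (1 + -((n : ℝ) / r)) ^ n) * (r : ℝ) ^ n := by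
              gcongr
          _ = _ := by ring
      have hc : ((r - n : ℕ) : ℝ) = (r : ℝ) - n := Nat.cast_sub hnr
      rw [← hc] at this
      exact_mod_cast this
    have h4 : n.factorial * r ^ n < n.factorial * ((n.factorial + 1) * r.choose n) := by
      calc n.factorial * r ^ n < (n.factorial + 1) * (r - n) ^ n := key
        _ ≤ (n.factorial + 1) * r.descFactorial n := Nat.mul_le_mul_left _ hd
        _ = _ := by rw [Nat.descFactorial_eq_factorial_mul_choose]; ring
    exact lt_of_mul_lt_mul_left h4 (Nat.zero_le _)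

variable {α : Type}

theorem fn_congr {f g : (α → ℕ) → ℕ} (df : DiophFn f) (h : ∀ v, f v = g v) : DiophFn g := by
  have : f = g := funext h
  rwa [← this]

theorem cst (n : ℕ) : DiophFn (fun _ : α → ℕ => n) := const_dioph n

theorem choose_dioph {f g : (α → ℕ) → ℕ} (df : DiophFn f) (dg : DiophFn g) :
    DiophFn fun v => (f v).choose (g v) := by
  have hu : DiophFn fun v => 2 ^ f v + 1 := add_dioph (pow_dioph (cst 2) df) (cst 1)
  exact fn_congr (mod_dioph (div_dioph (pow_dioph (add_dioph hu (cst 1)) df) (pow_dioph hu dg)) hu)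
    fun v => (choose_eq _ _).symm

theorem factorial_dioph {f : (α → ℕ) → ℕ} (df : DiophFn f) :
    DiophFn fun v => (f v).factorial := by
  have hr : DiophFn fun v => (f v + 1) ^ (f v + 3) :=
    pow_dioph (add_dioph df (cst 1)) (add_dioph df (cst 3))
  exact fn_congr (div_dioph (pow_dioph hr df) (choose_dioph hr df)) fun v => (factorial_eq _).symm

theorem univ_dioph : Dioph (Set.univ : Set (α → ℕ)) :=
  of_no_dummies _ 0 fun v => by simp

theorem forall_finset {ι : Type} (T : Finset ι) (S : ι → Set (α → ℕ)) (h : ∀ i ∈ T, Dioph (S i)) :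
    Dioph {v | ∀ i ∈ T, v ∈ S i} := by
  classical
  induction T using Finset.induction_on with
  | empty => exact univ_dioph.ext fun v => by simp
  | insert a T _ ih =>
    exact ((h a (mem_insert_self _ _)).inter (ih fun i hi => h i (mem_insert_of_mem hi))).ext
      fun v => by simp

theorem and_dioph {P Q : (α → ℕ) → Prop} (hP : Dioph {v | P v}) (hQ : Dioph {v | Q v}) :
    Dioph {v | P v ∧ Q v} := hP.inter hQ

theorem or_dioph {P Q : (α → ℕ) → Prop} (hP : Dioph {v | P v}) (hQ : Dioph {v | Q v}) :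
    Dioph {v | P v ∨ Q v} := Dioph.union hP hQ

/-- A polynomial function involves finitely many variables, respects congruences and is
polynomially bounded. -/
theorem poly_facts {γ : Type} {f : (γ → ℕ) → ℤ} (hf : IsPoly f) :
    ∃ (T : Finset γ) (D : ℕ), (∀ (v : γ → ℕ) (s : ℕ), (∀ i ∈ T, v i ≤ s) → |f v| ≤ (s + 2) ^ D) ∧
      ∀ (v v' : γ → ℕ) (m : ℤ), (∀ i ∈ T, (v i : ℤ) ≡ v' i [ZMOD m]) → f v ≡ f v' [ZMOD m] := by
  classical
  have mono : ∀ (s a b : ℕ), a ≤ b → ((s : ℤ) + 2) ^ a ≤ ((s : ℤ) + 2) ^ b := fun s a b h =>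
    pow_le_pow_right₀ (by omega) h
  induction hf with
  | proj i =>
    refine ⟨{i}, 1, fun v s h => ?_, fun v v' m h => h i (mem_singleton_self _)⟩
    have := h i (mem_singleton_self _)
    show |((v i : ℕ) : ℤ)| ≤ _
    rw [abs_of_nonneg (by positivity), pow_one]
    omega
  | const n =>
    refine ⟨∅, n.natAbs, fun v s _ => ?_, fun _ _ _ _ => Int.ModEq.refl _⟩
    have h1 : n.natAbs < 2 ^ n.natAbs := Nat.lt_two_pow_self
    have h2 : (2 : ℤ) ^ n.natAbs ≤ ((s : ℤ) + 2) ^ n.natAbs :=
      pow_le_pow_left₀ (by norm_num) (by omega) _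
    have h3 : ((n.natAbs : ℕ) : ℤ) < 2 ^ n.natAbs := by exact_mod_cast h1
    rw [Int.abs_eq_natAbs]
    linarith
  | sub _ _ ih1 ih2 =>
    obtain ⟨T1, D1, b1, c1⟩ := ih1
    obtain ⟨T2, D2, b2, c2⟩ := ih2
    refine ⟨T1 ∪ T2, D1 + D2 + 1, fun v s h => ?_, fun v v' m h => ?_⟩
    · have e1 := (b1 v s fun i hi => h i (mem_union_left _ hi)).trans
        (mono s D1 (D1 + D2) (by omega))
      have e2 := (b2 v s fun i hi => h i (mem_union_right _ hi)).trans
        (mono s D2 (D1 + D2) (by omega))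
      have hp : (0 : ℤ) ≤ ((s : ℤ) + 2) ^ (D1 + D2) := by positivity
      refine (abs_sub _ _).trans ?_
      rw [pow_succ]
      nlinarith
    · exact (c1 v v' m fun i hi => h i (mem_union_left _ hi)).sub
        (c2 v v' m fun i hi => h i (mem_union_right _ hi))
  | mul _ _ ih1 ih2 =>
    obtain ⟨T1, D1, b1, c1⟩ := ih1
    obtain ⟨T2, D2, b2, c2⟩ := ih2
    refine ⟨T1 ∪ T2, D1 + D2, fun v s h => ?_, fun v v' m h => ?_⟩
    · rw [abs_mul, pow_add]
      exact mul_le_mul (b1 v s fun i hi => h i (mem_union_left _ hi))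
        (b2 v s fun i hi => h i (mem_union_right _ hi)) (abs_nonneg _) (by positivity)
    · exact (c1 v v' m fun i hi => h i (mem_union_left _ hi)).mul
        (c2 v v' m fun i hi => h i (mem_union_right _ hi))

end Pool.Agent.Lib.Common.DPRM
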