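import Pool.Agent.Lib.Common.DPRM.Basic

/-!
The bounded universal quantifier preserves Diophantine sets (Davis, Putnam, Robinson).
-/

namespace Pool.Agent.Lib.Common.DPRM

open Dioph Finset

theorem prime_gt {K e k p : ℕ} (hk : k + 1 ≤ K) (hp : p.Prime)
    (hd : p ∣ K.factorial * K.factorial * e / (k + 1) - 1) (he : 0 < e) : K < p := by
  by_contra hlt
  push Not at hlt
  obtain ⟨c, hc⟩ : (k + 1) ∣ K.factorial := Nat.dvd_factorial (by omega) hk
  have h1 : K.factorial * K.factorial * e / (k + 1) = c * K.factorial * e := by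
    conv_lhs => rw [hc, mul_assoc, mul_assoc, Nat.mul_div_cancel_left _ (by omega : 0 < k + 1)]
    rw [← hc]; ring
  have hpK : p ∣ K.factorial := Nat.dvd_factorial hp.pos hlt
  have h2 : p ∣ c * K.factorial * e := (hpK.mul_left c).mul_right e
  have hpos : 0 < c * K.factorial * e := by
    have hK := K.factorial_pos
    have : 0 < c := by
      rcases Nat.eq_zero_or_pos c with h | h
      · rw [h] at hc; omega
      · exact h
    positivity
  rw [h1] at hd
  have : p ∣ 1 := by
    have h3 := (Nat.dvd_sub h2 hd)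
    rwa [Nat.sub_sub_self (by omega)] at h3
  exact hp.one_lt.ne' (Nat.dvd_one.1 this)

theorem mul_nk {K e k q : ℕ} (hk : k + 1 ≤ K) (hq : q + 1 = K.factorial * K.factorial * e) :
    (k + 1) * ((q + 1) / (k + 1) - 1) = q - k := by
  have hd : (k + 1) ∣ q + 1 := by
    rw [hq]; exact ((Nat.dvd_factorial (by omega) hk).mul_right _).mul_right _
  rw [Nat.mul_sub, Nat.mul_div_cancel' hd]
  omega

theorem le_q {K e q : ℕ} (hq : q + 1 = K.factorial * K.factorial * e) : K ≤ q + 1 := by
  have he : 0 < e := by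
    rcases Nat.eq_zero_or_pos e with h | h
    · rw [h] at hq; omega
    · exact h
  have h1 := Nat.self_le_factorial K
  have h2 := K.factorial_pos
  rw [hq]
  calc K ≤ K.factorial * 1 * 1 := by omega
    _ ≤ _ := Nat.mul_le_mul (Nat.mul_le_mul_left _ h2) he

/-- The arithmetic core of the bounded quantifier theorem. -/
theorem core {β γ : Type} (P : ℕ → (β → ℕ) → ℤ) (T : Finset γ) (j : β → γ) (D b s0 : ℕ)
    (hb : ∀ (k s : ℕ) (t : β → ℕ), s0 ≤ s → k ≤ s → (∀ i, j i ∈ T → t i ≤ s) →
      |P k t| ≤ (s + 2) ^ D)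
    (hc : ∀ (k k' : ℕ) (t t' : β → ℕ) (m : ℤ), (k : ℤ) ≡ k' [ZMOD m] →
      (∀ i, j i ∈ T → (t i : ℤ) ≡ t' i [ZMOD m]) → P k t ≡ P k' t' [ZMOD m])
    (hj : Function.Injective j) :
    (∀ k < b, ∃ t, P k t = 0) ↔ ∃ (s q : ℕ) (z : β → ℕ), s0 ≤ s ∧ b ≤ s ∧
      ((s + 2) ^ (D + 1)).factorial * ((s + 2) ^ (D + 1)).factorial ∣ q + 1 ∧
      q.choose b ∣ (P q z).natAbs ∧ ∀ i, j i ∈ T → q.choose b ∣ (z i).choose (s + 1) := by
  classical
  have hK : ∀ s : ℕ, s + 2 ≤ (s + 2) ^ (D + 1) := fun s => by
    calc s + 2 = (s + 2) ^ 1 := by ring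
      _ ≤ _ := Nat.pow_le_pow_right (by omega) (by omega)
  constructor
  · intro h
    choose! t ht using h
    obtain ⟨s, hs⟩ : ∃ s, s = s0 + b + ∑ k ∈ range b, ∑ i ∈ T.preimage j hj.injOn, t k i :=
      ⟨_, rfl⟩
    have hts : ∀ k < b, ∀ i, j i ∈ T → t k i ≤ s := by
      intro k hk i hi
      have h1 : t k i ≤ ∑ i ∈ T.preimage j hj.injOn, t k i :=
        single_le_sum (f := fun i => t k i) (fun _ _ => Nat.zero_le _) (mem_preimage.2 hi)
      have h2 : ∑ i ∈ T.preimage j hj.injOn, t k i
          ≤ ∑ k ∈ range b, ∑ i ∈ T.preimage j hj.injOn, t k i :=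
        single_le_sum (f := fun k => ∑ i ∈ T.preimage j hj.injOn, t k i)
          (fun _ _ => Nat.zero_le _) (mem_range.2 hk)
      omega
    obtain ⟨K, hKdef⟩ : ∃ K, K = (s + 2) ^ (D + 1) := ⟨_, rfl⟩
    have hsK : s + 2 ≤ K := hKdef ▸ hK s
    have hbs : b ≤ s := by omega
    obtain ⟨q, hq⟩ : ∃ q, q + 1 = K.factorial * K.factorial * 1 :=
      ⟨K.factorial * K.factorial * 1 - 1, by
        have := K.factorial_pos
        have : 0 < K.factorial * K.factorial * 1 := by positivity
        omega⟩
    have hKq := le_q hq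
    obtain ⟨n, hn⟩ : ∃ n : ℕ → ℕ, n = fun k => (q + 1) / (k + 1) - 1 := ⟨_, rfl⟩
    have hmul : ∀ k < b, (k + 1) * n k = q - k := fun k hk => by
      rw [hn]; exact mul_nk (by omega) hq
    have hpr : ∀ k < b, ∀ p : ℕ, p.Prime → p ∣ n k → K < p := fun k hk p hp hd => by
      refine prime_gt (k := k) (e := 1) (by omega) hp ?_ one_pos
      rw [← hq]; rw [hn] at hd; exact hd
    have hn0 : ∀ k ∈ range b, n k ≠ 0 := fun k hk h0 => by
      have := hmul k (mem_range.1 hk)
      have hk' := mem_range.1 hk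
      rw [h0] at this; omega
    have hcop : Set.Pairwise (range b : Set ℕ) (Function.onFun Nat.Coprime n) := by
      have aux : ∀ k l, k < l → l < b → Nat.Coprime (n k) (n l) := by
        intro k l hkl hl
        apply Nat.coprime_of_dvd
        intro p hp h1 h2
        have hKp := hpr l hl p hp h2
        have h3 : p ∣ q - k := by rw [← hmul k (by omega)]; exact h1.mul_left _
        have h4 : p ∣ q - l := by rw [← hmul l hl]; exact h2.mul_left _
        have h5 := Nat.dvd_sub h3 h4
        have h6 : q - k - (q - l) = l - k := by omega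
        rw [h6] at h5
        have := Nat.le_of_dvd (by omega) h5
        omega
      intro k hk l hl hne
      simp only [coe_range, Set.mem_Iio] at hk hl
      rcases lt_or_gt_of_ne hne with h | h
      · exact aux k l h hl
      · exact (aux l k h hk).symm
    have hprod : ∏ k ∈ range b, n k = q.choose b := by
      have h1 : b.factorial * ∏ k ∈ range b, n k = b.factorial * q.choose b := by
        rw [← Nat.descFactorial_eq_factorial_mul_choose, Nat.descFactorial_eq_prod_range,
          ← prod_range_add_one_eq_factorial, ← prod_mul_distrib]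
        exact prod_congr rfl fun k hk => hmul k (mem_range.1 hk)
      exact Nat.eq_of_mul_eq_mul_left b.factorial_pos h1
    obtain ⟨z, hz⟩ : ∃ z : β → ℕ, ∀ i, ∀ k ∈ range b, z i ≡ t k i [MOD n k] :=
      ⟨fun i => (Nat.chineseRemainderOfFinset (fun k => t k i) n (range b) hn0 hcop).1,
        fun i => (Nat.chineseRemainderOfFinset (fun k => t k i) n (range b) hn0 hcop).2⟩
    have hdvd : ∀ x : ℕ, (∀ k < b, n k ∣ x) → q.choose b ∣ x := fun x hx => by
      rw [← hprod]
      exact Finset.prod_dvd_of_isRelPrime (fun k hk l hl hne => Nat.coprime_iff_isRelPrime.1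
        (hcop hk hl hne)) (fun k hk => hx k (mem_range.1 hk))
    refine ⟨s, q, z, by omega, hbs, by rw [← hKdef, hq]; simp, hdvd _ fun k hk => ?_,
      fun i hi => hdvd _ fun k hk => ?_⟩
    · have h1 : P q z ≡ P k (t k) [ZMOD (n k : ℤ)] := by
        apply hc
        · have h2 : (q : ℤ) = k + (n k : ℤ) * (k + 1) := by
            have := hmul k hk
            have h3 : q = k + n k * (k + 1) := by rw [mul_comm]; omega
            exact_mod_cast h3
          rw [h2]
          exact Int.modEq_add_fac_self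
        · intro i _
          exact Int.natCast_modEq_iff.2 (hz i k (mem_range.2 hk))
      rw [ht k hk] at h1
      exact Int.natCast_dvd.1 (Int.modEq_zero_iff_dvd.1 h1)
    · have hco : Nat.Coprime (n k) (s + 1).factorial := by
        apply Nat.coprime_of_dvd
        intro p hp h1 h2
        have hKp := hpr k hk p hp h1
        have := hp.dvd_factorial.1 h2
        omega
      apply hco.dvd_of_dvd_mul_left
      rw [← Nat.descFactorial_eq_factorial_mul_choose, Nat.descFactorial_eq_prod_range]
      have h1 := hts k hk i hi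
      refine dvd_trans ?_ (dvd_prod_of_mem _ (mem_range.2 (by omega : t k i < s + 1)))
      exact (hz i k (mem_range.2 hk)).symm.dvd'
  · rintro ⟨s, q, z, hs0, hbs, ⟨e, hq⟩, hP, hz⟩ k hk
    obtain ⟨K, hKdef⟩ : ∃ K, K = (s + 2) ^ (D + 1) := ⟨_, rfl⟩
    have hsK : s + 2 ≤ K := hKdef ▸ hK s
    rw [← hKdef] at hq
    have he : 0 < e := by
      rcases Nat.eq_zero_or_pos e with h | h
      · rw [h] at hq; omega
      · exact h
    have hmul := mul_nk (k := k) (by omega) hq
    have hne : (q + 1) / (k + 1) - 1 ≠ 1 := by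
      intro h1
      have h2 : K < 2 := by
        by_contra h3
        obtain ⟨c, hc⟩ : (k + 1) ∣ K.factorial := Nat.dvd_factorial (by omega) (by omega)
        have h4 : (q + 1) / (k + 1) = K.factorial * (c * e) := by
          rw [hq]
          conv_lhs => rw [hc, mul_assoc, mul_assoc, Nat.mul_div_cancel_left _ (by omega : 0 < k + 1)]
          rw [← hc]; ring
        have h5 : K.factorial ∣ 2 := ⟨c * e, by omega⟩
        have h6 := Nat.le_of_dvd (by omega) h5
        have h7 := Nat.self_le_factorial K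
        omega
      omega
    obtain ⟨p, hp, hpd⟩ := Nat.exists_prime_and_dvd hne
    have hKp : K < p := prime_gt (k := k) (e := e) (by omega) hp (by rw [← hq]; exact hpd) he
    have hpq : p ∣ q - k := by rw [← hmul]; exact hpd.mul_left _
    have hKq := le_q hq
    have hpc : p ∣ q.choose b := by
      have h1 : p ∣ b.factorial * q.choose b := by
        rw [← Nat.descFactorial_eq_factorial_mul_choose, Nat.descFactorial_eq_prod_range]
        exact hpq.trans (dvd_prod_of_mem _ (mem_range.2 hk))
      rcases (Nat.Prime.dvd_mul hp).1 h1 with h | h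
      · have := (hp.dvd_factorial).1 h
        omega
      · exact h
    have hx : ∀ i, j i ∈ T → ∃ x ≤ s, x ≡ z i [MOD p] := by
      intro i hi
      have h1 : p ∣ (z i).descFactorial (s + 1) := by
        rw [Nat.descFactorial_eq_factorial_mul_choose]
        exact (hpc.trans (hz i hi)).mul_left _
      rw [Nat.descFactorial_eq_prod_range] at h1
      obtain ⟨x, hx, hd⟩ := (Prime.dvd_finsetProd_iff hp.prime _).1 h1
      have hx' := mem_range.1 hx
      rcases le_or_gt x (z i) with h | h
      · exact ⟨x, by omega, (Nat.modEq_iff_dvd' h).2 hd⟩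
      · exact ⟨z i, by omega, Nat.ModEq.refl _⟩
    choose! x hx1 hx2 using hx
    refine ⟨x, ?_⟩
    have h1 : P k x ≡ P q z [ZMOD (p : ℤ)] := by
      apply hc
      · exact Int.natCast_modEq_iff.2 ((Nat.modEq_iff_dvd' (by omega)).2 hpq)
      · intro i hi
        exact Int.natCast_modEq_iff.2 (hx2 i hi)
    have h2 : (p : ℤ) ∣ P q z := Int.natCast_dvd.2 (hpc.trans hP)
    have h3 : (p : ℤ) ∣ P k x := Int.modEq_zero_iff_dvd.1 (h1.trans (Int.modEq_zero_iff_dvd.2 h2))
    have h4 := hb k s x hs0 (by omega) hx1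
    have h5 : ((s : ℤ) + 2) ^ D < p := by
      have : (s + 2) ^ D ≤ K := by
        rw [hKdef]; exact Nat.pow_le_pow_right (by omega) (by omega)
      have h6 : (s + 2) ^ D < p := by omega
      exact_mod_cast h6
    exact Int.eq_zero_of_abs_lt_dvd h3 (by linarith)

/-- **Bounded quantifier theorem.** -/
theorem ball_dioph {α : Type} {S : Set (Option α → ℕ)} (d : Dioph S) {f : (α → ℕ) → ℕ}
    (df : DiophFn f) : Dioph {v | ∀ k < f v, Option.elim' k v ∈ S} := by
  classical
  obtain ⟨β, p, hp⟩ := d
  obtain ⟨T, D, hb, hc⟩ := poly_facts p.isPoly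
  obtain ⟨A, hA⟩ : ∃ A : Finset α, ∀ a, a ∈ A ↔ Sum.inl (some a) ∈ T :=
    ⟨T.preimage (fun a => Sum.inl (some a))
      (fun _ _ _ _ h => Option.some.inj (Sum.inl.inj h)), fun a => mem_preimage⟩
  obtain ⟨B, hB⟩ : ∃ B : Finset β, ∀ a, a ∈ B ↔ Sum.inr a ∈ T :=
    ⟨T.preimage Sum.inr (fun _ _ _ _ h => Sum.inr.inj h), fun a => mem_preimage⟩
  have sumA : ∀ {γ : Type} (e : α → γ), DiophFn fun w : γ → ℕ => ∑ a ∈ A, w (e a) := by
    intro γ e
    clear hA
    induction A using Finset.induction_on with
    | empty => exact fn_congr (cst 0) fun _ => by simp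
    | insert a A ha ih =>
      exact fn_congr (add_dioph (proj_dioph (e a)) ih) fun _ => by rw [sum_insert ha]
  let γ := α ⊕ Option (Option β)
  have ds : DiophFn fun w : γ → ℕ => w (Sum.inr none) := proj_dioph _
  have dq : DiophFn fun w : γ → ℕ => w (Sum.inr (some none)) := proj_dioph _
  have db : DiophFn fun w : γ → ℕ => f (w ∘ Sum.inl) := reindex_diophFn _ df
  have dK := factorial_dioph (pow_dioph (add_dioph ds (cst 2)) (cst (D + 1)))
  have dC := choose_dioph dq db
  let ρ : Option α ⊕ β → γ :=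
    Sum.elim (Option.elim' (Sum.inr (some none)) Sum.inl) fun i => Sum.inr (some (some i))
  have dP := abs_poly_dioph (p.map ρ)
  have dZ := forall_finset B
    (fun i => {w : γ → ℕ | (w (Sum.inr (some none))).choose (f (w ∘ Sum.inl)) ∣
      (w (Sum.inr (some (some i)))).choose (w (Sum.inr none) + 1)})
    (fun i _ => dvd_dioph dC (choose_dioph (proj_dioph _) (add_dioph ds (cst 1))))
  have dall := ex_dioph (and_dioph (le_dioph (sumA Sum.inl) ds) (and_dioph (le_dioph db ds)
    (and_dioph (dvd_dioph (mul_dioph dK dK) (add_dioph dq (cst 1)))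
      (and_dioph (dvd_dioph dC dP) dZ))))
  refine dall.ext fun v => ?_
  have hcore := core (fun k t => p (Sum.elim (Option.elim' k v) t)) T Sum.inr D (f v)
    (∑ a ∈ A, v a) ?_ ?_ (fun _ _ h => Sum.inr.inj h)
  · simp only [Set.mem_ofPred_eq, hp]
    rw [hcore]
    have hρ : ∀ x : Option (Option β) → ℕ, (Sum.elim v x) ∘ ρ
        = Sum.elim (Option.elim' (x (some none)) v) fun i => x (some (some i)) := by
      intro x; funext i; rcases i with (_ | a) | i <;> rfl
    constructor
    · rintro ⟨x, h1, h2, h3, h4, h5⟩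
      refine ⟨x none, x (some none), fun i => x (some (some i)), h1, h2, h3, ?_,
        fun i hi => h5 i ((hB i).2 hi)⟩
      rw [Poly.map_apply, hρ] at h4
      exact h4
    · rintro ⟨s, q, z, h1, h2, h3, h4, h5⟩
      refine ⟨Option.elim' s (Option.elim' q z), h1, h2, h3, ?_, fun i hi => h5 i ((hB i).1 hi)⟩
      rw [Poly.map_apply, hρ]
      exact h4
  · intro k s t h1 h2 h3
    apply hb
    rintro ((_ | a) | i) hi
    · exact h2
    · exact (single_le_sum (f := v) (fun _ _ => Nat.zero_le _) ((hA a).2 hi)).trans h1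
    · exact h3 i hi
  · intro k k' t t' m h1 h2
    apply hc
    rintro ((_ | a) | i) hi
    · exact h1
    · exact Int.ModEq.refl _
    · exact h2 i hi

end Pool.Agent.Lib.Common.DPRM
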