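import Pool.Agent.Lib.Common.DPRM.Bounded

/-!
The DPRM theorem: graphs of partial recursive functions are Diophantine; an undecidable
one-parameter family of Diophantine equations over the integers.
-/

namespace Pool.Agent.Lib.Common.DPRM

open Dioph Finset

variable {α : Type}

theorem ex_dioph1 {P : (α → ℕ) → ℕ → Prop}
    (h : Dioph {w : Option α → ℕ | P (w ∘ some) (w none)}) : Dioph {v | ∃ x, P v x} :=
  (ex1_dioph h).ext fun _ => Iff.rfl

theorem ball_dioph1 {P : (α → ℕ) → ℕ → Prop} {f : (α → ℕ) → ℕ} (df : DiophFn f)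
    (h : Dioph {w : Option α → ℕ | P (w ∘ some) (w none)}) : Dioph {v | ∀ x < f v, P v x} :=
  (ball_dioph h df).ext fun _ => Iff.rfl

theorem up {f : (α → ℕ) → ℕ} (df : DiophFn f) :
    DiophFn fun w : Option α → ℕ => f (w ∘ some) := reindex_diophFn _ df

theorem top : DiophFn fun w : Option α → ℕ => w none := proj_dioph _

theorem pair_dioph {f g : (α → ℕ) → ℕ} (df : DiophFn f) (dg : DiophFn g) :
    DiophFn fun v => Nat.pair (f v) (g v) := by
  have h1 := or_dioph
    (and_dioph (lt_dioph (up df) (up dg)) (eq_dioph (add_dioph (mul_dioph (up dg) (up dg)) (up df)) top))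
    (and_dioph (le_dioph (up dg) (up df))
      (eq_dioph (add_dioph (add_dioph (mul_dioph (up df) (up df)) (up df)) (up dg)) top))
  refine h1.ext fun w => ?_
  simp only [Set.mem_ofPred_eq, Nat.pair]
  split_ifs with h
  · constructor
    · rintro (⟨_, h2⟩ | ⟨h2, _⟩)
      · exact h2
      · omega
    · exact fun h2 => Or.inl ⟨h, h2⟩
  · constructor
    · rintro (⟨h2, _⟩ | ⟨_, h2⟩)
      · exact absurd h2 h
      · exact h2
    · exact fun h2 => Or.inr ⟨not_lt.1 h, h2⟩

theorem mem_rec_iff (F : Part ℕ) (G : ℕ → ℕ → Part ℕ) (n r : ℕ) :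
    r ∈ (Nat.rec F (fun y IH => IH.bind fun i => G y i) n : Part ℕ) ↔
      ∃ s : ℕ → ℕ, s 0 ∈ F ∧ (∀ y < n, s (y + 1) ∈ G y (s y)) ∧ s n = r := by
  induction n generalizing r with
  | zero =>
    constructor
    · exact fun h => ⟨fun _ => r, h, fun _ h => absurd h (by omega), rfl⟩
    · rintro ⟨s, h, _, rfl⟩; exact h
  | succ n ih =>
    simp only [Part.mem_bind_iff]
    constructor
    · rintro ⟨i, hi, hr⟩
      obtain ⟨s, h0, h1, h2⟩ := (ih i).1 hi
      refine ⟨fun y => if y ≤ n then s y else r, by simpa using h0, fun y hy => ?_, by simp⟩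
      beta_reduce
      rcases Nat.lt_succ_iff_lt_or_eq.1 hy with h | h
      · rw [if_pos (show y + 1 ≤ n by omega), if_pos (show y ≤ n by omega)]; exact h1 y h
      · subst h
        rw [if_neg (show ¬ y + 1 ≤ y by omega), if_pos le_rfl, h2]; exact hr
    · rintro ⟨s, h0, h1, h2⟩
      exact ⟨s n, (ih _).2 ⟨s, h0, fun y hy => h1 y (by omega), rfl⟩, h2 ▸ h1 n (by omega)⟩

theorem code_seq (s : ℕ → ℕ) (n : ℕ) : ∃ u c : ℕ, ∀ i ≤ n, c / u ^ i % u = s i := by
  refine ⟨∑ i ∈ range (n + 1), s i + 1,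
    ∑ i ∈ range (n + 1), (if i ≤ n then s i else 0) * (∑ i ∈ range (n + 1), s i + 1) ^ i,
    fun i hi => ?_⟩
  rw [digit _ i (n + 1) (fun i => if i ≤ n then s i else 0) _ (by omega), if_pos hi]
  intro k
  split_ifs with h
  · exact Nat.lt_succ_of_le (single_le_sum (f := s) (fun _ _ => Nat.zero_le _)
      (mem_range.2 (by omega)))
  · omega

theorem partrec_dioph {f : ℕ →. ℕ} (hf : Nat.Partrec f) :
    ∀ {α : Type} {a b : (α → ℕ) → ℕ}, DiophFn a → DiophFn b → Dioph {v | b v ∈ f (a v)} := by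
  induction hf with
  | zero =>
    intro α a b _ db
    exact (eq_dioph db (cst 0)).ext fun v => by
      simp only [Set.mem_ofPred_eq]; exact Part.mem_some_iff.symm
  | succ =>
    intro α a b da db
    exact (eq_dioph db (add_dioph da (cst 1))).ext fun v => by
      simp only [Set.mem_ofPred_eq]; exact Part.mem_some_iff.symm
  | left =>
    intro α a b da db
    refine (ex_dioph1 (P := fun v x => a v = Nat.pair (b v) x)
      (eq_dioph (up da) (pair_dioph (up db) top))).ext fun v => ?_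
    simp only [Set.mem_ofPred_eq]
    refine Iff.trans ?_ Part.mem_some_iff.symm
    constructor
    · rintro ⟨x, hx⟩; simp [hx]
    · intro h; exact ⟨(a v).unpair.2, by rw [h, Nat.pair_unpair]⟩
  | right =>
    intro α a b da db
    refine (ex_dioph1 (P := fun v x => a v = Nat.pair x (b v))
      (eq_dioph (up da) (pair_dioph top (up db)))).ext fun v => ?_
    simp only [Set.mem_ofPred_eq]
    refine Iff.trans ?_ Part.mem_some_iff.symm
    constructor
    · rintro ⟨x, hx⟩; simp [hx]
    · intro h; exact ⟨(a v).unpair.1, by rw [h, Nat.pair_unpair]⟩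
  | @pair f g _ _ ihf ihg =>
    intro α a b da db
    refine (ex_dioph1 (P := fun v x => ∃ y, x ∈ f (a v) ∧ y ∈ g (a v) ∧ b v = Nat.pair x y)
      (ex_dioph1 (P := fun w y => w none ∈ f (a (w ∘ some)) ∧ y ∈ g (a (w ∘ some)) ∧
        b (w ∘ some) = Nat.pair (w none) y)
        (and_dioph (ihf (up (up da)) (up top)) (and_dioph (ihg (up (up da)) top)
          (eq_dioph (up (up db)) (pair_dioph (up top) top)))))).ext fun v => ?_
    simp only [Set.mem_ofPred_eq, Seq.seq, Part.map_eq_map, Part.mem_bind_iff,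
      Part.mem_map_iff]
    constructor
    · rintro ⟨x, y, h1, h2, h3⟩
      exact ⟨_, ⟨x, h1, rfl⟩, y, h2, h3.symm⟩
    · rintro ⟨_, ⟨x, h1, rfl⟩, y, h2, h3⟩
      exact ⟨x, y, h1, h2, h3.symm⟩
  | @comp f g _ _ ihf ihg =>
    intro α a b da db
    refine (ex_dioph1 (P := fun v x => x ∈ g (a v) ∧ b v ∈ f x)
      (and_dioph (ihg (up da) top) (ihf top (up db)))).ext fun v => ?_
    simp only [Set.mem_ofPred_eq, Part.bind_eq_bind, Part.mem_bind_iff]
  | @prec f g _ _ ihf ihg =>
    intro α a b da db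
    let γ := α ⊕ Fin 4
    have d0 : DiophFn fun w : γ → ℕ => w (Sum.inr 0) := proj_dioph _
    have d1 : DiophFn fun w : γ → ℕ => w (Sum.inr 1) := proj_dioph _
    have d2 : DiophFn fun w : γ → ℕ => w (Sum.inr 2) := proj_dioph _
    have d3 : DiophFn fun w : γ → ℕ => w (Sum.inr 3) := proj_dioph _
    have da' : DiophFn fun w : γ → ℕ => a (w ∘ Sum.inl) := reindex_diophFn _ da
    have db' : DiophFn fun w : γ → ℕ => b (w ∘ Sum.inl) := reindex_diophFn _ db
    have dig : ∀ {δ : Type} {u c i : (δ → ℕ) → ℕ}, DiophFn u → DiophFn c → DiophFn i →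
        DiophFn fun w => c w / u w ^ i w % u w :=
      fun du dc di => mod_dioph (div_dioph dc (pow_dioph du di)) du
    have hstep := ball_dioph1 (P := fun (w : γ → ℕ) y =>
        w (Sum.inr 3) / w (Sum.inr 2) ^ (y + 1) % w (Sum.inr 2) ∈
          g (Nat.pair (w (Sum.inr 0)) (Nat.pair y
            (w (Sum.inr 3) / w (Sum.inr 2) ^ y % w (Sum.inr 2))))) d1
      (ihg (pair_dioph (up d0) (pair_dioph top (dig (up d2) (up d3) top)))
        (dig (up d2) (up d3) (add_dioph top (cst 1))))
    refine (ex_dioph (and_dioph (eq_dioph da' (pair_dioph d0 d1))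
      (and_dioph (ihf d0 (dig d2 d3 (cst 0))) (and_dioph hstep
        (eq_dioph (dig d2 d3 d1) db'))))).ext fun v => ?_
    simp only [Set.mem_ofPred_eq, Nat.unpaired, Part.bind_eq_bind]
    rw [mem_rec_iff (f (a v).unpair.1) (fun y i => g (Nat.pair (a v).unpair.1 (Nat.pair y i)))]
    constructor
    · rintro ⟨x, h1, h2, h3, h4⟩
      have h1' : a v = Nat.pair (x 0) (x 1) := h1
      rw [h1', Nat.unpair_pair]
      exact ⟨fun i => x 3 / x 2 ^ i % x 2, h2, h3, h4⟩
    · rintro ⟨s, h1, h2, h3⟩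
      obtain ⟨u, c, hc⟩ := code_seq s (a v).unpair.2
      refine ⟨![(a v).unpair.1, (a v).unpair.2, u, c], (Nat.pair_unpair _).symm, ?_, ?_, ?_⟩
      · show c / u ^ 0 % u ∈ f (a v).unpair.1
        rw [hc 0 (Nat.zero_le _)]; exact h1
      · intro y hy
        have hy' : y < (a v).unpair.2 := hy
        show c / u ^ (y + 1) % u ∈ g (Nat.pair (a v).unpair.1 (Nat.pair y (c / u ^ y % u)))
        rw [hc (y + 1) hy', hc y hy'.le]; exact h2 y hy'
      · show c / u ^ (a v).unpair.2 % u = b v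
        rw [hc _ le_rfl]; exact h3
  | @rfind f _ ih =>
    intro α a b da db
    refine (and_dioph (ih (pair_dioph da db) (cst 0))
      (ball_dioph1 (P := fun v m => ∃ k, k + 1 ∈ f (Nat.pair (a v) m)) db
        (ex_dioph1 (P := fun w k => k + 1 ∈ f (Nat.pair (a (w ∘ some)) (w none)))
          (ih (pair_dioph (up (up da)) (up top)) (add_dioph top (cst 1)))))).ext fun v => ?_
    simp only [Set.mem_ofPred_eq, Nat.mem_rfind, Part.map_eq_map, Part.mem_map_iff]
    constructor
    · rintro ⟨h1, h2⟩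
      refine ⟨⟨0, h1, by simp⟩, fun {m} hm => ?_⟩
      obtain ⟨k, hk⟩ := h2 m hm
      exact ⟨k + 1, hk, by simp⟩
    · rintro ⟨⟨x, h1, h1'⟩, h2⟩
      have : x = 0 := by simpa using h1'
      subst this
      refine ⟨h1, fun m hm => ?_⟩
      obtain ⟨k, hk, hk'⟩ := h2 hm
      have : k ≠ 0 := by simpa using hk'
      exact ⟨k - 1, by rwa [Nat.sub_add_cancel (by omega)]⟩

/-- There is a Diophantine set of natural numbers that is not computable. -/
theorem exists_dioph_not_computable :
    ∃ K : ℕ → Prop, Dioph {v : Unit → ℕ | K (v ())} ∧ ¬ ComputablePred K := by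
  refine ⟨fun e => ((Denumerable.ofNat Nat.Partrec.Code e).eval 0).Dom, ?_, fun h => ?_⟩
  · have hp : Partrec fun e : ℕ => (Denumerable.ofNat Nat.Partrec.Code e).eval 0 :=
      Nat.Partrec.Code.eval_part.comp (Computable.ofNat _) (Computable.const _)
    have h := partrec_dioph (Partrec.nat_iff.1 hp) (up (proj_dioph (α := Unit) ())) top
    refine (ex_dioph1 (P := fun v x => x ∈ (Denumerable.ofNat Nat.Partrec.Code (v ())).eval 0)
      h).ext fun v => ?_
    simp only [Set.mem_ofPred_eq]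
    exact Part.dom_iff_mem.symm
  · apply ComputablePred.halting_problem 0
    obtain ⟨inst, hc⟩ := h
    have h2 := hc.comp (Computable.encode (α := Nat.Partrec.Code))
    classical
    refine ⟨inferInstance, h2.of_eq fun c => ?_⟩
    simp

theorem isPoly_mv {γ : Type} {f : (γ → ℕ) → ℤ} (hf : IsPoly f) (ι : γ → MvPolynomial ℕ ℤ) :
    ∃ Q : MvPolynomial ℕ ℤ, ∀ (y : ℕ → ℤ) (v : γ → ℕ),
      (∀ i, MvPolynomial.eval y (ι i) = v i) → MvPolynomial.eval y Q = f v := by
  induction hf with
  | proj i => exact ⟨ι i, fun y v h => h i⟩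
  | const n => exact ⟨MvPolynomial.C n, fun y v _ => by simp⟩
  | sub _ _ ih1 ih2 =>
    obtain ⟨Q1, h1⟩ := ih1
    obtain ⟨Q2, h2⟩ := ih2
    exact ⟨Q1 - Q2, fun y v h => by simp [h1 y v h, h2 y v h]⟩
  | mul _ _ ih1 ih2 =>
    obtain ⟨Q1, h1⟩ := ih1
    obtain ⟨Q2, h2⟩ := ih2
    exact ⟨Q1 * Q2, fun y v h => by simp [h1 y v h, h2 y v h]⟩

/-- **Hilbert's tenth problem over the integers**, one-parameter form. -/
theorem exists_mvPoly_not_computable : ∃ Q : MvPolynomial ℕ ℤ,
    ¬ ComputablePred fun n : ℕ => ∃ y : ℕ → ℤ, y 0 = n ∧ MvPolynomial.eval y Q = 0 := by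
  classical
  obtain ⟨K, ⟨β, p, hp⟩, hK⟩ := exists_dioph_not_computable
  obtain ⟨T, D, -, hc⟩ := poly_facts p.isPoly
  obtain ⟨e, he⟩ : ∃ e : Unit ⊕ β → ℕ, Set.InjOn e T := by
    refine ⟨fun i => if h : i ∈ T then (T.equivFin ⟨i, h⟩ : ℕ) else 0, fun i hi j hj h => ?_⟩
    simp only [mem_coe] at hi hj
    simp only [dif_pos hi, dif_pos hj] at h
    have := T.equivFin.injective (Fin.ext h)
    exact congrArg Subtype.val this
  let ι : Unit ⊕ β → MvPolynomial ℕ ℤ := Sum.elim (fun _ => MvPolynomial.X 0) fun i =>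
    MvPolynomial.X (4 * e (Sum.inr i) + 1) ^ 2 + MvPolynomial.X (4 * e (Sum.inr i) + 2) ^ 2 +
      MvPolynomial.X (4 * e (Sum.inr i) + 3) ^ 2 + MvPolynomial.X (4 * e (Sum.inr i) + 4) ^ 2
  obtain ⟨Q, hQ⟩ := isPoly_mv p.isPoly ι
  refine ⟨Q, fun h => hK ?_⟩
  have : (fun n : ℕ => ∃ y : ℕ → ℤ, y 0 = n ∧ MvPolynomial.eval y Q = 0) = K := by
    funext n
    apply propext
    have h1 := hp fun _ => n
    simp only [Set.mem_ofPred_eq] at h1
    rw [h1]
    constructor
    · rintro ⟨y, h0, hy⟩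
      refine ⟨fun i => (y (4 * e (Sum.inr i) + 1)).natAbs ^ 2 +
        (y (4 * e (Sum.inr i) + 2)).natAbs ^ 2 + (y (4 * e (Sum.inr i) + 3)).natAbs ^ 2 +
        (y (4 * e (Sum.inr i) + 4)).natAbs ^ 2, ?_⟩
      rw [← hy]
      symm
      apply hQ
      rintro (_ | i)
      · simp [ι, h0]
      · simp [ι]
    · rintro ⟨t, ht⟩
      obtain ⟨t', ht'⟩ : ∃ t' : ℕ → ℕ, ∀ i, Sum.inr i ∈ T → t' (e (Sum.inr i)) = t i := by
        refine ⟨fun m => if h : ∃ i, Sum.inr i ∈ T ∧ e (Sum.inr i) = m then t h.choose else 0,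
          fun i hi => ?_⟩
        have hex : ∃ j, Sum.inr j ∈ T ∧ e (Sum.inr j) = e (Sum.inr i) := ⟨i, hi, rfl⟩
        beta_reduce
        rw [dif_pos hex]
        have := he hex.choose_spec.1 hi hex.choose_spec.2
        rw [Sum.inr.inj this]
      choose a b c d habcd using Nat.sum_four_squares
      let y : ℕ → ℤ := fun m => if m = 0 then n else
        if m % 4 = 1 then a (t' ((m - 1) / 4)) else if m % 4 = 2 then b (t' ((m - 1) / 4)) else
        if m % 4 = 3 then c (t' ((m - 1) / 4)) else d (t' ((m - 1) / 4))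
      have y1 : ∀ m, y (4 * m + 1) = a (t' m) := fun m => by
        simp only [y]
        rw [if_neg (by omega), if_pos (by omega), show (4 * m + 1 - 1) / 4 = m by omega]
      have y2 : ∀ m, y (4 * m + 2) = b (t' m) := fun m => by
        simp only [y]
        rw [if_neg (by omega), if_neg (by omega), if_pos (by omega),
          show (4 * m + 2 - 1) / 4 = m by omega]
      have y3 : ∀ m, y (4 * m + 3) = c (t' m) := fun m => by
        simp only [y]
        rw [if_neg (by omega), if_neg (by omega), if_neg (by omega), if_pos (by omega),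
          show (4 * m + 3 - 1) / 4 = m by omega]
      have y4 : ∀ m, y (4 * m + 4) = d (t' m) := fun m => by
        simp only [y]
        rw [if_neg (by omega), if_neg (by omega), if_neg (by omega), if_neg (by omega),
          show (4 * m + 4 - 1) / 4 = m by omega]
      refine ⟨y, by simp [y], ?_⟩
      rw [hQ y (Sum.elim (fun _ => n) fun i => t' (e (Sum.inr i)))]
      · have := hc (Sum.elim (fun _ => n) fun i => t' (e (Sum.inr i))) (Sum.elim (fun _ => n) t) 0 ?_
        · rw [ht] at this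
          simpa [Int.ModEq] using this
        · rintro (_ | i) hi
          · exact Int.ModEq.refl _
          · simp only [Sum.elim_inr, ht' i hi]
            exact Int.ModEq.refl _
      · rintro (_ | i)
        · simp [ι, y]
        · simp only [ι, Sum.elim_inr, map_add, map_pow, MvPolynomial.eval_X, y1, y2, y3, y4]
          exact_mod_cast habcd _
  rwa [this] at h

end Pool.Agent.Lib.Common.DPRM
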